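import Pool.Agent.Lib.H57I.Final

/-!
# Feasible interpolation for GCNF+permutation refutations with few renamed copies
-/

open H57I

namespace Pool.Agent.Results.MP_40874a_lc.FewCopies

/-- **Interpolants from refutations with few renamed copies.**

Let `P` be a refutation of `A ∪ B`, where no variable of kind `r` occurs in `A` and none of kind `p` in
`B`. If every renamed copy of line `i` is a private renaming of one of `N i` cedents, there is an
interpolant with at most `15 * ∑ i, N i * size (line i)` gates, without negations if the shared variables
occur only positively in `A`. If all permutations used in `P` lie in a group `G` in which the private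
renamings have finite index, this holds with this index as `N i`. -/
theorem result {V : Type} [DecidableEq V] (P : Refutation V) (kind : V → Kind) (A B : Cedent V)
    (hA : ∀ C ∈ A, ∀ l ∈ C, kind l.1 ≠ .r) (hB : ∀ C ∈ B, ∀ l ∈ C, kind l.1 ≠ .p)
    (h : P.line P.last = A ∪ B) :
    (∀ R, Copies P kind R → Bound P kind A B fun i => (R i).card) ∧
    ∀ G : Subgroup (Equiv.Perm V), (∀ i ≤ P.last, ∀ j π, P.rule i = .perm j π → π ∈ G) →
      (priv kind).relIndex G ≠ 0 → Bound P kind A B fun _ => (priv kind).relIndex G :=
  final P kind A B hA hB h

end Pool.Agent.Results.MP_40874a_lc.FewCopies
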